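import Pool.Agent.helper95.FJ.SpecX

set_option autoImplicit false

open Finset

noncomputable section

namespace Pool.Agent.FJ

open Pool.Agent.FI
open Pool.Agent.BP (PW tl Gw fjk FE SCW_stmt)
open Pool.Agent.SK (tr0)

theorem FEJ_lep : 3 / 2 ≤ lep ∧ lep ≤ 2 := by
  unfold lep
  have h8 : (2 : ℝ) ≤ √8 := Real.le_sqrt_of_sq_le (by norm_num)
  have h8' : √8 ≤ 3 := Real.sqrt_le_iff.2 ⟨by norm_num, by norm_num⟩
  have e1 := Real.exp_one_lt_d9
  have e2 := Real.exp_one_gt_d9
  have hpos : 0 < Real.exp 1 := Real.exp_pos 1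
  constructor
  · rw [Real.le_log_iff_exp_le (by linarith)]
    have h1 : Real.exp (3 / 2) ^ 2 ≤ 5 ^ 2 := by
      rw [← Real.exp_nat_mul]
      have h2 : ((2 : ℕ) : ℝ) * (3 / 2) = ((3 : ℕ) : ℝ) * 1 := by norm_num
      rw [h2, Real.exp_nat_mul]
      have h3 : Real.exp 1 ^ 3 ≤ (2.72 : ℝ) ^ 3 := pow_le_pow_left₀ hpos.le (by linarith) 3
      refine h3.trans (by norm_num)
    have h4 := (abs_le_of_sq_le_sq h1 (by norm_num))
    linarith [(le_abs_self (Real.exp (3 / 2))).trans h4]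
  · rw [Real.log_le_iff_le_exp (by linarith)]
    have h2 : (2 : ℝ) = ((2 : ℕ) : ℝ) * 1 := by norm_num
    rw [h2, Real.exp_nat_mul]
    have h3 : (2.7 : ℝ) ^ 2 ≤ Real.exp 1 ^ 2 := pow_le_pow_left₀ (by norm_num) (by linarith) 2
    refine le_trans ?_ h3
    norm_num
    linarith

theorem FEJ_tn_cont (h c : ℝ) : Continuous (tn h c) := by
  unfold tn
  fun_prop

theorem FEJ_tn_nn (h c t : ℝ) : 0 ≤ tn h c t := le_max_left _ _

theorem FEJ_tn_le (h c t : ℝ) (hh : 0 < h) : tn h c t ≤ 1 := by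
  unfold tn
  apply max_le (by norm_num)
  have : 0 ≤ |t - c| / h := by positivity
  linarith

theorem FEJ_tn_zero (h c t : ℝ) (hh : 0 < h) (ht : h ≤ |t - c|) : tn h c t = 0 := by
  unfold tn
  apply max_eq_left
  have := (one_le_div hh).2 ht
  linarith

theorem FEJ_tn_lip (h c y t : ℝ) (hh : 0 < h) : |tn h c y - tn h c t| ≤ |y - t| / h := by
  unfold tn
  have h1 := abs_max_sub_max_le_abs (1 - |y - c| / h) (1 - |t - c| / h) 0
  rw [max_comm 0, max_comm 0]
  refine h1.trans ?_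
  have h2 : (1 - |y - c| / h) - (1 - |t - c| / h) = (|t - c| - |y - c|) / h := by ring
  rw [h2, abs_div, abs_of_pos hh]
  apply div_le_div_of_nonneg_right _ hh.le
  have h3 := abs_abs_sub_abs_le_abs_sub (t - c) (y - c)
  have h4 : t - c - (y - c) = -(y - t) := by ring
  rw [h4, abs_neg] at h3
  exact h3

/-- the sum as an integral -/
theorem FEJ_sum (hFJK : FJK_stmt) (h c α y : ℝ) (K : ℕ) (hK : 1 ≤ K) :
    ∑ m ∈ Icc (-(K : ℤ)) K, ((1 - |(m : ℝ)| / K : ℝ) : ℂ) * ck h c (fr α m) * Complex.exp (fr α m * y * Complex.I) =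
      1 / (2 * lep : ℂ) * ∫ t in (c - h)..(c + h), (tn h c t : ℂ) *
        (Complex.exp (((α * ((y - t) / (2 * lep)) : ℝ) : ℂ) * Complex.I) * fjk K ((y - t) / (2 * lep))) := by
  have hl := FEJ_lep
  have hl0 : lep ≠ 0 := by linarith [hl.1]
  have hl0' : (lep : ℂ) ≠ 0 := by exact_mod_cast hl0
  have h1 : ∀ m ∈ Icc (-(K : ℤ)) K, ((1 - |(m : ℝ)| / K : ℝ) : ℂ) * ck h c (fr α m) * Complex.exp (fr α m * y * Complex.I) =
      1 / (2 * lep : ℂ) * ∫ t in (c - h)..(c + h), (tn h c t : ℂ) * (Complex.exp (((α * ((y - t) / (2 * lep)) : ℝ) : ℂ) * Complex.I) *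
        (((1 - |(m : ℝ)| / K : ℝ) : ℂ) * Complex.exp (((2 * Real.pi * m * ((y - t) / (2 * lep)) : ℝ) : ℂ) * Complex.I))) := by
    intro m _
    unfold ck
    rw [mul_comm ((1 - |(m : ℝ)| / K : ℝ) : ℂ), mul_assoc, mul_assoc, ← intervalIntegral.integral_mul_const]
    congr 1
    apply intervalIntegral.integral_congr
    intro t _
    show (tn h c t : ℂ) * Complex.exp (-((fr α m : ℂ) * t) * Complex.I) * (((1 - |(m : ℝ)| / K : ℝ) : ℂ) * Complex.exp (fr α m * y * Complex.I)) = _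
    have h2 : Complex.exp (-((fr α m : ℂ) * t) * Complex.I) * Complex.exp (fr α m * y * Complex.I) =
        Complex.exp (((α * ((y - t) / (2 * lep)) : ℝ) : ℂ) * Complex.I) * Complex.exp (((2 * Real.pi * m * ((y - t) / (2 * lep)) : ℝ) : ℂ) * Complex.I) := by
      rw [← Complex.exp_add, ← Complex.exp_add]
      congr 1
      unfold fr
      push_cast
      field_simp
      ring
    calc (tn h c t : ℂ) * Complex.exp (-((fr α m : ℂ) * t) * Complex.I) * (((1 - |(m : ℝ)| / K : ℝ) : ℂ) * Complex.exp (fr α m * y * Complex.I))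
        = (tn h c t : ℂ) * ((1 - |(m : ℝ)| / K : ℝ) : ℂ) * (Complex.exp (-((fr α m : ℂ) * t) * Complex.I) * Complex.exp (fr α m * y * Complex.I)) := by ring
      _ = _ := by rw [h2]; ring
  rw [Finset.sum_congr rfl h1, ← Finset.mul_sum, ← intervalIntegral.integral_finsetSum]
  · congr 1
    apply intervalIntegral.integral_congr
    intro t _
    show ∑ m ∈ Icc (-(K : ℤ)) K, (tn h c t : ℂ) * (Complex.exp (((α * ((y - t) / (2 * lep)) : ℝ) : ℂ) * Complex.I) *
        (((1 - |(m : ℝ)| / K : ℝ) : ℂ) * Complex.exp (((2 * Real.pi * m * ((y - t) / (2 * lep)) : ℝ) : ℂ) * Complex.I))) = _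
    rw [← Finset.mul_sum, ← Finset.mul_sum]
    rfl
  · intro m _
    apply Continuous.intervalIntegrable
    have := FEJ_tn_cont h c
    fun_prop

/-- pointwise bound of the kernel -/
theorem FEJ_ker (hFJK : FJK_stmt) (K : ℕ) (hK : 1 ≤ K) (u : ℝ) (hu : |u| ≤ 1 / 2) :
    (fjk K u).re ≤ 2 * K / (1 + 4 * K ^ 2 * u ^ 2) := by
  obtain ⟨_, _, h3, h4, _⟩ := hFJK K hK
  have h1 := (h3 u).2.2
  have h2 := h4 u hu
  have hK0 : (0 : ℝ) ≤ K := Nat.cast_nonneg K
  rw [le_div_iff₀ (by positivity)]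
  have h5 : (fjk K u).re * (1 + 4 * K ^ 2 * u ^ 2) = (fjk K u).re + K * (4 * K * u ^ 2 * (fjk K u).re) := by ring
  rw [h5]
  nlinarith [mul_le_mul_of_nonneg_left h2 hK0]

theorem FEJ_half (K : ℕ) (hK : 1 ≤ K) : ∫ u in (0 : ℝ)..(1 / 2), u * (2 * K / (1 + 4 * K ^ 2 * u ^ 2)) = Real.log (1 + K ^ 2) / (4 * K) := by
  have hK0 : (0 : ℝ) < K := by exact_mod_cast hK
  have hd : ∀ u : ℝ, HasDerivAt (fun u : ℝ => Real.log (1 + 4 * K ^ 2 * u ^ 2) / (4 * K)) (u * (2 * K / (1 + 4 * K ^ 2 * u ^ 2))) u := by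
    intro u
    have h1 : HasDerivAt (fun u : ℝ => 1 + 4 * (K : ℝ) ^ 2 * u ^ 2) (4 * K ^ 2 * (2 * u)) u := by
      have h2 := ((hasDerivAt_pow 2 u).const_mul (4 * (K : ℝ) ^ 2)).const_add 1
      have h3 : 4 * (K : ℝ) ^ 2 * ((2 : ℕ) * u ^ (2 - 1)) = 4 * K ^ 2 * (2 * u) := by
        norm_num
      rw [h3] at h2
      exact h2
    have hpos : (1 + 4 * (K : ℝ) ^ 2 * u ^ 2) ≠ 0 := by positivity
    have h4 := (h1.log hpos).div_const (4 * K)
    have h5 : 4 * (K : ℝ) ^ 2 * (2 * u) / (1 + 4 * K ^ 2 * u ^ 2) / (4 * K) = u * (2 * K / (1 + 4 * K ^ 2 * u ^ 2)) := by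
      field_simp
    rw [h5] at h4
    exact h4
  rw [intervalIntegral.integral_eq_sub_of_hasDerivAt (fun u _ => hd u)]
  · have e1 : 1 + 4 * (K : ℝ) ^ 2 * (1 / 2) ^ 2 = 1 + K ^ 2 := by ring
    have e2 : 1 + 4 * (K : ℝ) ^ 2 * 0 ^ 2 = 1 := by ring
    rw [e1, e2, Real.log_one, zero_div, sub_zero]
  · apply Continuous.intervalIntegrable
    apply Continuous.mul continuous_id
    apply Continuous.div continuous_const
    · fun_prop
    · intro u
      positivity

theorem FEJ_int (K : ℕ) (hK : 1 ≤ K) : ∫ u in (-(1 / 2) : ℝ)..(1 / 2), |u| * (2 * K / (1 + 4 * K ^ 2 * u ^ 2)) ≤ (1 + Real.log K) / K := by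
  have hK1 : (1 : ℝ) ≤ K := by exact_mod_cast hK
  have hK0 : (0 : ℝ) < K := by linarith
  have hc : Continuous fun u : ℝ => |u| * (2 * K / (1 + 4 * K ^ 2 * u ^ 2)) := by
    apply Continuous.mul continuous_abs
    apply Continuous.div continuous_const
    · fun_prop
    · intro u
      positivity
  have h1 : ∫ u in (0 : ℝ)..(1 / 2), |u| * (2 * K / (1 + 4 * K ^ 2 * u ^ 2)) = Real.log (1 + K ^ 2) / (4 * K) := by
    rw [← FEJ_half K hK]
    apply intervalIntegral.integral_congr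
    intro u hu
    rw [Set.uIcc_of_le (by norm_num)] at hu
    show |u| * _ = u * _
    rw [abs_of_nonneg hu.1]
  have h2 : ∫ u in (-(1 / 2) : ℝ)..0, |u| * (2 * K / (1 + 4 * K ^ 2 * u ^ 2)) = Real.log (1 + K ^ 2) / (4 * K) := by
    rw [← h1]
    have h3 := intervalIntegral.integral_comp_neg (a := (0 : ℝ)) (b := 1 / 2) (fun u : ℝ => |u| * (2 * K / (1 + 4 * K ^ 2 * u ^ 2)))
    rw [neg_zero] at h3
    rw [← h3]
    apply intervalIntegral.integral_congr
    intro u _
    show |(-u)| * (2 * K / (1 + 4 * K ^ 2 * (-u) ^ 2)) = _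
    rw [abs_neg, neg_sq]
  rw [← intervalIntegral.integral_add_adjacent_intervals (hc.intervalIntegrable _ _) (hc.intervalIntegrable (0 : ℝ) (1 / 2)), h1, h2]
  have h4 : Real.log (1 + K ^ 2) ≤ 2 + 2 * Real.log K := by
    have h5 : Real.log (1 + K ^ 2) ≤ Real.log (2 * K ^ 2) := Real.log_le_log (by positivity) (by nlinarith)
    rw [Real.log_mul (by norm_num) (by positivity), Real.log_pow] at h5
    have h6 := Real.log_two_lt_d9
    push_cast at h5
    linarith
  have h7 : Real.log (1 + K ^ 2) / (4 * K) + Real.log (1 + K ^ 2) / (4 * K) = Real.log (1 + K ^ 2) / 2 / K := by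
    field_simp
    ring
  rw [h7]
  apply div_le_div_of_nonneg_right _ hK0.le
  linarith

theorem FEJ_norm (hFJK : FJK_stmt) (K : ℕ) (hK : 1 ≤ K) (w : ℝ) : ‖fjk K w‖ = (fjk K w).re := by
  obtain ⟨_, _, h3, _, _⟩ := hFJK K hK
  have h := h3 w
  rw [h.1, Complex.ofReal_re, Complex.norm_real, Real.norm_eq_abs, abs_of_nonneg h.2.1]

/-- kernel away from zero -/
theorem FEJ_far (hFJK : FJK_stmt) (K : ℕ) (hK : 1 ≤ K) (w : ℝ) (hw0 : w ≠ 0) (hw : |w| ≤ 5 / 6) :
    (fjk K w).re ≤ 7 / (K * w ^ 2) := by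
  obtain ⟨_, h2, h3, h4, _⟩ := hFJK K hK
  have hK0 : (0 : ℝ) < K := by exact_mod_cast hK
  have hw2 : 0 < w ^ 2 := by positivity
  rw [le_div_iff₀ (by positivity)]
  by_cases h : |w| ≤ 1 / 2
  · have := h4 w h
    have hn := (h3 w).2.1
    nlinarith
  · push Not at h
    have hsq : w ^ 2 ≤ 25 / 36 := by
      rw [← sq_abs]
      calc |w| ^ 2 ≤ (5 / 6) ^ 2 := pow_le_pow_left₀ (abs_nonneg _) hw 2
        _ = 25 / 36 := by norm_num
    have key : ∀ v : ℝ, fjk K w = fjk K v → |v| ≤ 1 / 2 → 1 / 6 ≤ |v| → (fjk K w).re * (K * w ^ 2) ≤ 7 := by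
      intro v hv hv1 hv2
      rw [hv]
      have h5 := h4 v hv1
      have h6 : 1 / 36 ≤ v ^ 2 := by
        rw [← sq_abs]
        calc (1 : ℝ) / 36 = (1 / 6) ^ 2 := by norm_num
          _ ≤ |v| ^ 2 := pow_le_pow_left₀ (by norm_num) hv2 2
      have hn := (h3 v).2.1
      have h7 : K * (fjk K v).re ≤ 9 := by
        have h8 : 0 ≤ K * (fjk K v).re := by positivity
        nlinarith [mul_le_mul_of_nonneg_left h6 h8]
      have h9 : 0 ≤ K * (fjk K v).re := by positivity
      calc (fjk K v).re * (K * w ^ 2) = (K * (fjk K v).re) * w ^ 2 := by ring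
        _ ≤ (K * (fjk K v).re) * (25 / 36) := mul_le_mul_of_nonneg_left hsq h9
        _ ≤ 9 * (25 / 36) := mul_le_mul_of_nonneg_right h7 (by norm_num)
        _ ≤ 7 := by norm_num
    rcases le_or_gt 0 w with hs | hs
    · rw [abs_of_nonneg hs] at h hw
      apply key (w - 1)
      · have := h2 (w - 1)
        rw [sub_add_cancel] at this
        exact this
      · rw [abs_le]; constructor <;> linarith
      · rw [abs_of_nonpos (by linarith)]; linarith
    · rw [abs_of_neg hs] at h hw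
      apply key (w + 1)
      · exact (h2 w).symm
      · rw [abs_le]; constructor <;> linarith
      · rw [abs_of_nonneg (by linarith)]; linarith

/-- case 1 -/
theorem FEJ_case1 (hFJK : FJK_stmt) (h c α y : ℝ) (K : ℕ) (hK : 1 ≤ K) (hh : 0 < h) (hhc : h ≤ c) (hc1 : c + h ≤ 1)
    (hy : |y| ≤ lep) (hcase : 2 * h ≤ |y - c|) :
    ‖1 / (2 * lep : ℂ) * ∫ t in (c - h)..(c + h), (tn h c t : ℂ) *
        (Complex.exp (((α * ((y - t) / (2 * lep)) : ℝ) : ℂ) * Complex.I) * fjk K ((y - t) / (2 * lep)))‖ ≤ 224 * h / (K * (y - c) ^ 2) := by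
  have hl := FEJ_lep
  have hl0 : 0 < lep := by linarith [hl.1]
  have hK0 : (0 : ℝ) < K := by exact_mod_cast hK
  have hyc : 0 < |y - c| := by linarith
  have hyc2 : 0 < (y - c) ^ 2 := by rw [← sq_abs]; positivity
  have hb : ∀ t ∈ Set.uIoc (c - h) (c + h), ‖(tn h c t : ℂ) *
        (Complex.exp (((α * ((y - t) / (2 * lep)) : ℝ) : ℂ) * Complex.I) * fjk K ((y - t) / (2 * lep)))‖ ≤ 112 * lep ^ 2 / (K * (y - c) ^ 2) := by
    intro t ht
    rw [Set.uIoc_of_le (by linarith)] at ht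
    rw [norm_mul, norm_mul, Complex.norm_exp_ofReal_mul_I, one_mul, Complex.norm_real, Real.norm_eq_abs, abs_of_nonneg (FEJ_tn_nn h c t),
      FEJ_norm hFJK K hK]
    have htc : |t - c| ≤ h := by rw [abs_le]; constructor <;> linarith [ht.1, ht.2]
    have h1 : |y - c| / 2 ≤ |y - t| := by
      have h2 : |y - c| ≤ |y - t| + |t - c| := by
        have := abs_add_le (y - t) (t - c)
        have e : y - t + (t - c) = y - c := by ring
        rw [e] at this
        exact this
      linarith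
    have h3 : |y - t| ≤ lep + 1 := by
      have h4 : |y - t| ≤ |y| + |t| := abs_sub _ _
      have h5 : |t| ≤ 1 := by rw [abs_le]; constructor <;> linarith [ht.1, ht.2]
      linarith
    have hw0 : (y - t) / (2 * lep) ≠ 0 := by
      apply div_ne_zero
      · intro h0
        rw [h0, abs_zero] at h1
        linarith
      · positivity
    have hw : |(y - t) / (2 * lep)| ≤ 5 / 6 := by
      rw [abs_div, abs_of_pos (by positivity : 0 < 2 * lep), div_le_iff₀ (by positivity)]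
      linarith [hl.1]
    have h6 := FEJ_far hFJK K hK _ hw0 hw
    have h7 : (y - c) ^ 2 / (16 * lep ^ 2) ≤ ((y - t) / (2 * lep)) ^ 2 := by
      rw [div_pow, div_le_div_iff₀ (by positivity) (by positivity)]
      have h8 : (|y - c| / 2) ^ 2 ≤ |y - t| ^ 2 := pow_le_pow_left₀ (by positivity) h1 2
      rw [sq_abs, div_pow, sq_abs] at h8
      nlinarith [mul_le_mul_of_nonneg_right h8 (by positivity : 0 ≤ 16 * lep ^ 2)]
    have h9 : 7 / (K * ((y - t) / (2 * lep)) ^ 2) ≤ 112 * lep ^ 2 / (K * (y - c) ^ 2) := by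
      have h10 : 112 * lep ^ 2 / (K * (y - c) ^ 2) = 7 / (K * ((y - c) ^ 2 / (16 * lep ^ 2))) := by
        field_simp
        norm_num
      rw [h10]
      apply div_le_div_of_nonneg_left (by norm_num) (by positivity)
      exact mul_le_mul_of_nonneg_left h7 hK0.le
    have hre := ((hFJK K hK).2.2.1 ((y - t) / (2 * lep))).2.1
    calc tn h c t * (fjk K ((y - t) / (2 * lep))).re ≤ 1 * (fjk K ((y - t) / (2 * lep))).re :=
          mul_le_mul_of_nonneg_right (FEJ_tn_le h c t hh) hre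
      _ ≤ _ := by rw [one_mul]; exact h6.trans h9
  have h1 := intervalIntegral.norm_integral_le_of_norm_le_const hb
  have e1 : |c + h - (c - h)| = 2 * h := by
    have : c + h - (c - h) = 2 * h := by ring
    rw [this, abs_of_pos (by linarith)]
  rw [e1] at h1
  rw [norm_mul]
  have e2 : ‖(1 / (2 * lep : ℂ))‖ = 1 / (2 * lep) := by
    rw [norm_div, norm_one, norm_mul, Complex.norm_real, Real.norm_eq_abs, abs_of_pos hl0]
    norm_num
  rw [e2]
  calc 1 / (2 * lep) * ‖∫ t in (c - h)..(c + h), (tn h c t : ℂ) *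
        (Complex.exp (((α * ((y - t) / (2 * lep)) : ℝ) : ℂ) * Complex.I) * fjk K ((y - t) / (2 * lep)))‖
      ≤ 1 / (2 * lep) * (112 * lep ^ 2 / (K * (y - c) ^ 2) * (2 * h)) := mul_le_mul_of_nonneg_left h1 (by positivity)
    _ = 112 * lep * h / (K * (y - c) ^ 2) := by field_simp
    _ ≤ 224 * h / (K * (y - c) ^ 2) := by
      apply div_le_div_of_nonneg_right _ (by positivity)
      nlinarith [hl.2]

/-- case 2 -/
theorem FEJ_case2 (hFJK : FJK_stmt) (h c α y : ℝ) (K : ℕ) (hK : 1 ≤ K) (hh : 0 < h) (hhc : h ≤ c) (hc1 : c + h ≤ 1)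
    (hα0 : 0 ≤ α) (hα : α < 2 * Real.pi) (hcase : |y - c| < 2 * h) :
    ‖(tn h c y : ℂ) - 1 / (2 * lep : ℂ) * ∫ t in (c - h)..(c + h), (tn h c t : ℂ) *
        (Complex.exp (((α * ((y - t) / (2 * lep)) : ℝ) : ℂ) * Complex.I) * fjk K ((y - t) / (2 * lep)))‖ ≤ 8 / h * ((1 + Real.log K) / K) := by
  have hl := FEJ_lep
  have hl0 : 0 < lep := by linarith [hl.1]
  have hl0' : (lep : ℂ) ≠ 0 := by exact_mod_cast hl0.ne'
  have hK0 : (0 : ℝ) < K := by exact_mod_cast hK
  obtain ⟨F1, F2, F3, F4, F5⟩ := hFJK K hK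
  have hyc := abs_lt.1 hcase
  set H : ℝ → ℂ := fun u => (tn h c (y - 2 * lep * u) : ℂ) * (Complex.exp (((α * u : ℝ) : ℂ) * Complex.I) * fjk K u) with hH
  have hHc : Continuous H := by
    have := FEJ_tn_cont h c
    rw [hH]
    fun_prop
  have hG : ∀ t : ℝ, (tn h c t : ℂ) * (Complex.exp (((α * ((y - t) / (2 * lep)) : ℝ) : ℂ) * Complex.I) * fjk K ((y - t) / (2 * lep))) =
      H (y / (2 * lep) - t / (2 * lep)) := by
    intro t
    rw [hH]
    have e1 : y / (2 * lep) - t / (2 * lep) = (y - t) / (2 * lep) := by ring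
    have e2 : y - 2 * lep * ((y - t) / (2 * lep)) = t := by field_simp; ring
    simp only [e1, e2]
  simp only [hG]
  have hGc : Continuous fun t : ℝ => H (y / (2 * lep) - t / (2 * lep)) := hHc.comp (by fun_prop)
  -- extension of the interval
  have hzero : ∀ t : ℝ, h ≤ |t - c| → H (y / (2 * lep) - t / (2 * lep)) = 0 := by
    intro t ht
    rw [← hG, FEJ_tn_zero h c t hh ht]
    simp
  have i1 : ∫ t in (y - lep)..(c - h), H (y / (2 * lep) - t / (2 * lep)) = 0 := by
    have : ∫ t in (y - lep)..(c - h), H (y / (2 * lep) - t / (2 * lep)) = ∫ t in (y - lep)..(c - h), (0 : ℂ) := by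
      apply intervalIntegral.integral_congr
      intro t ht
      rw [Set.uIcc_of_le (by linarith [hl.1])] at ht
      apply hzero
      rw [le_abs]
      right
      linarith [ht.2]
    rw [this, intervalIntegral.integral_zero]
  have i2 : ∫ t in (c + h)..(y + lep), H (y / (2 * lep) - t / (2 * lep)) = 0 := by
    have : ∫ t in (c + h)..(y + lep), H (y / (2 * lep) - t / (2 * lep)) = ∫ t in (c + h)..(y + lep), (0 : ℂ) := by
      apply intervalIntegral.integral_congr
      intro t ht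
      rw [Set.uIcc_of_le (by linarith [hl.1])] at ht
      apply hzero
      rw [le_abs]
      left
      linarith [ht.1]
    rw [this, intervalIntegral.integral_zero]
  have i3 : ∫ t in (y - lep)..(y + lep), H (y / (2 * lep) - t / (2 * lep)) = ∫ t in (c - h)..(c + h), H (y / (2 * lep) - t / (2 * lep)) := by
    rw [← intervalIntegral.integral_add_adjacent_intervals (hGc.intervalIntegrable (y - lep) (c - h)) (hGc.intervalIntegrable (c - h) (y + lep)), i1, zero_add,
      ← intervalIntegral.integral_add_adjacent_intervals (hGc.intervalIntegrable (c - h) (c + h)) (hGc.intervalIntegrable (c + h) (y + lep)), i2, add_zero]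
  rw [← i3, intervalIntegral.integral_comp_sub_div H (by positivity : 2 * lep ≠ 0)]
  have b1 : y / (2 * lep) - (y + lep) / (2 * lep) = -(1 / 2) := by field_simp; ring
  have b2 : y / (2 * lep) - (y - lep) / (2 * lep) = 1 / 2 := by field_simp; ring
  rw [b1, b2, Complex.real_smul]
  have b3 : 1 / (2 * (lep : ℂ)) * (((2 * lep : ℝ) : ℂ) * ∫ u in (-(1 / 2) : ℝ)..(1 / 2), H u) = ∫ u in (-(1 / 2) : ℝ)..(1 / 2), H u := by
    push_cast
    field_simp
  rw [b3]
  have b4 : (tn h c y : ℂ) = ∫ u in (-(1 / 2) : ℝ)..(1 / 2), (tn h c y : ℂ) * fjk K u := by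
    rw [intervalIntegral.integral_const_mul]
    have h1 : ∫ u in (-(1 / 2) : ℝ)..(1 / 2), fjk K u = 1 := by
      have h2 : ((∫ u in (-(1 / 2) : ℝ)..(1 / 2), (fjk K u).re : ℝ) : ℂ) = ∫ u in (-(1 / 2) : ℝ)..(1 / 2), fjk K u := by
        rw [← intervalIntegral.integral_ofReal]
        apply intervalIntegral.integral_congr
        intro u _
        exact ((F3 u).1).symm
      rw [← h2, F5, Complex.ofReal_one]
    rw [h1, mul_one]
  have hFc : Continuous fun u : ℝ => (tn h c y : ℂ) * fjk K u := continuous_const.mul F1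
  have hsub := intervalIntegral.integral_sub (μ := MeasureTheory.volume) (hFc.intervalIntegrable (-(1 / 2)) (1 / 2)) (hHc.intervalIntegrable (-(1 / 2)) (1 / 2))
  rw [b4, ← hsub]
  have hcg : Continuous fun u : ℝ => 8 / h * (|u| * (2 * K / (1 + 4 * K ^ 2 * u ^ 2))) := by
    apply Continuous.mul continuous_const
    apply Continuous.mul continuous_abs
    apply Continuous.div continuous_const
    · fun_prop
    · intro u
      positivity
  refine (intervalIntegral.norm_integral_le_of_norm_le (g := fun u : ℝ => 8 / h * (|u| * (2 * K / (1 + 4 * K ^ 2 * u ^ 2)))) (by norm_num)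
    (Filter.Eventually.of_forall fun u hu => ?_) (hcg.intervalIntegrable _ _)).trans ?_
  · have hu2 : |u| ≤ 1 / 2 := by rw [abs_le]; constructor <;> linarith [hu.1, hu.2]
    have e1 : (tn h c y : ℂ) * fjk K u - H u = ((tn h c y : ℂ) - (tn h c (y - 2 * lep * u) : ℂ) * Complex.exp (((α * u : ℝ) : ℂ) * Complex.I)) * fjk K u := by
      rw [hH]
      ring
    rw [e1, norm_mul, FEJ_norm hFJK K hK]
    have hk := FEJ_ker hFJK K hK u hu2
    have hkn := (F3 u).2.1
    have e2 : ‖(tn h c y : ℂ) - (tn h c (y - 2 * lep * u) : ℂ) * Complex.exp (((α * u : ℝ) : ℂ) * Complex.I)‖ ≤ 8 / h * |u| := by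
      have e3 : (tn h c y : ℂ) - (tn h c (y - 2 * lep * u) : ℂ) * Complex.exp (((α * u : ℝ) : ℂ) * Complex.I) =
          ((tn h c y - tn h c (y - 2 * lep * u) : ℝ) : ℂ) - (tn h c (y - 2 * lep * u) : ℂ) * (Complex.exp (Complex.I * ((α * u : ℝ) : ℂ)) - 1) := by
        rw [mul_comm Complex.I]
        push_cast
        ring
      rw [e3]
      refine (norm_sub_le _ _).trans ?_
      rw [Complex.norm_real, Real.norm_eq_abs, norm_mul, Complex.norm_real, Real.norm_eq_abs, abs_of_nonneg (FEJ_tn_nn _ _ _)]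
      have l1 := FEJ_tn_lip h c y (y - 2 * lep * u) hh
      have l2 : |y - (y - 2 * lep * u)| = 2 * lep * |u| := by
        have : y - (y - 2 * lep * u) = 2 * lep * u := by ring
        rw [this, abs_mul, abs_of_pos (by positivity : 0 < 2 * lep)]
      rw [l2] at l1
      have l3 : ‖Complex.exp (Complex.I * ((α * u : ℝ) : ℂ)) - 1‖ ≤ α * |u| := by
        have := Real.norm_exp_I_mul_ofReal_sub_one_le (x := α * u)
        rw [Real.norm_eq_abs, abs_mul, abs_of_nonneg hα0] at this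
        exact this
      have l4 := FEJ_tn_le h c (y - 2 * lep * u) hh
      have l5 := FEJ_tn_nn h c (y - 2 * lep * u)
      have hu0 := abs_nonneg u
      have l6 : tn h c (y - 2 * lep * u) * ‖Complex.exp (Complex.I * ((α * u : ℝ) : ℂ)) - 1‖ ≤ 1 * (α * |u|) :=
        mul_le_mul l4 l3 (norm_nonneg _) (by norm_num)
      have hpi := Real.pi_lt_d2
      have l7 : 2 * lep * |u| / h ≤ 4 * |u| / h := by
        apply div_le_div_of_nonneg_right _ hh.le
        nlinarith [hl.2]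
      have hh2 : h ≤ 1 / 2 := by linarith
      have l8 : α * |u| ≤ 4 * |u| / h := by
        rw [le_div_iff₀ hh]
        have : α * h ≤ 4 := by nlinarith
        nlinarith
      have l9 : 8 / h * |u| = 4 * |u| / h + 4 * |u| / h := by ring
      rw [l9]
      linarith
    calc ‖(tn h c y : ℂ) - (tn h c (y - 2 * lep * u) : ℂ) * Complex.exp (((α * u : ℝ) : ℂ) * Complex.I)‖ * (fjk K u).re
        ≤ (8 / h * |u|) * (2 * K / (1 + 4 * K ^ 2 * u ^ 2)) := mul_le_mul e2 hk hkn (by positivity)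
      _ = 8 / h * (|u| * (2 * K / (1 + 4 * K ^ 2 * u ^ 2))) := by ring
  · rw [intervalIntegral.integral_const_mul]
    exact mul_le_mul_of_nonneg_left (FEJ_int K hK) (by positivity)

theorem FEJ (hFJK : FJK_stmt) : FEJ_stmt := by
  refine ⟨280, by norm_num, ?_⟩
  intro h c hh hhc hc1 α hα0 hα K hK y hy
  have hK1 : (1 : ℝ) ≤ K := by exact_mod_cast hK
  have hK0 : (0 : ℝ) < K := by linarith
  have hlog : 0 ≤ Real.log K := Real.log_nonneg hK1
  rw [FEJ_sum hFJK h c α y K hK]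
  have hden : 0 < h ^ 2 + (y - c) ^ 2 := by positivity
  rcases le_or_gt (2 * h) |y - c| with hcase | hcase
  · rw [FEJ_tn_zero h c y hh (by linarith), Complex.ofReal_zero, zero_sub, norm_neg]
    refine (FEJ_case1 hFJK h c α y K hK hh hhc hc1 hy hcase).trans ?_
    have hyc : 4 * h ^ 2 ≤ (y - c) ^ 2 := by
      have := pow_le_pow_left₀ (by positivity : 0 ≤ 2 * h) hcase 2
      rw [sq_abs] at this
      nlinarith
    have hyc0 : 0 < (y - c) ^ 2 := by nlinarith
    have e1 : 280 * (1 + Real.log K) / (h * K) * (h ^ 2 / (h ^ 2 + (y - c) ^ 2)) = (280 * (1 + Real.log K) * h) / (K * (h ^ 2 + (y - c) ^ 2)) := by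
      field_simp
    rw [e1, div_le_div_iff₀ (by positivity) (by positivity)]
    have h1 : 224 * (h ^ 2 + (y - c) ^ 2) ≤ 280 * (y - c) ^ 2 := by linarith
    have h2 : 224 * h * (K * (h ^ 2 + (y - c) ^ 2)) = h * K * (224 * (h ^ 2 + (y - c) ^ 2)) := by ring
    have h3 : 280 * (1 + Real.log K) * h * (K * (y - c) ^ 2) = h * K * (280 * (y - c) ^ 2) + h * K * (280 * (y - c) ^ 2) * Real.log K := by ring
    rw [h2, h3]
    have h4 : 0 ≤ h * K * (280 * (y - c) ^ 2) * Real.log K := by positivity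
    have h5 : h * K * (224 * (h ^ 2 + (y - c) ^ 2)) ≤ h * K * (280 * (y - c) ^ 2) := mul_le_mul_of_nonneg_left h1 (by positivity)
    linarith
  · refine (FEJ_case2 hFJK h c α y K hK hh hhc hc1 hα0 hα hcase).trans ?_
    have hyc : (y - c) ^ 2 ≤ 4 * h ^ 2 := by
      have := pow_le_pow_left₀ (abs_nonneg _) hcase.le 2
      rw [sq_abs] at this
      nlinarith
    have h1 : 1 / 5 ≤ h ^ 2 / (h ^ 2 + (y - c) ^ 2) := by
      rw [div_le_div_iff₀ (by norm_num) hden]
      linarith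
    have h2 : 8 / h * ((1 + Real.log K) / K) = 8 * (1 + Real.log K) / (h * K) := by field_simp
    rw [h2]
    have h3 : 0 ≤ (1 + Real.log K) / (h * K) := by positivity
    calc 8 * (1 + Real.log K) / (h * K) = 40 * ((1 + Real.log K) / (h * K)) * (1 / 5) := by ring
      _ ≤ 280 * ((1 + Real.log K) / (h * K)) * (1 / 5) := by nlinarith
      _ ≤ 280 * ((1 + Real.log K) / (h * K)) * (h ^ 2 / (h ^ 2 + (y - c) ^ 2)) := mul_le_mul_of_nonneg_left h1 (by positivity)
      _ = _ := by ring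

end Pool.Agent.FJ
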