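import Pool.Agent.helper95.FJ.SpecX

set_option autoImplicit false

open Finset

noncomputable section

namespace Pool.Agent.FJ

open Pool.Agent.FI
open Pool.Agent.BP (PW tl Gw fjk FE SCW_stmt)
open Pool.Agent.SK (tr0)

/-- the exponential `e(m u)` -/
def FJK_e (u : ℝ) (m : ℤ) : ℂ := Complex.exp (((2 * Real.pi * m * u : ℝ) : ℂ) * Complex.I)

theorem FJK_add (u : ℝ) (m n : ℤ) : FJK_e u (m + n) = FJK_e u m * FJK_e u n := by
  unfold FJK_e
  rw [← Complex.exp_add]
  congr 1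
  push_cast
  ring

theorem FJK_zero (u : ℝ) : FJK_e u 0 = 1 := by
  unfold FJK_e
  simp

theorem FJK_norm (u : ℝ) (m : ℤ) : ‖FJK_e u m‖ = 1 := by
  unfold FJK_e
  exact Complex.norm_exp_ofReal_mul_I _

theorem FJK_conj (u : ℝ) (m : ℤ) : (starRingEnd ℂ) (FJK_e u m) = FJK_e u (-m) := by
  unfold FJK_e
  rw [← Complex.exp_conj]
  congr 1
  rw [map_mul, Complex.conj_ofReal, Complex.conj_I]
  push_cast
  ring

theorem FJK_Icc (K : ℕ) (g : ℤ → ℂ) : ∑ m ∈ Icc (-((K + 1 : ℕ) : ℤ)) ((K + 1 : ℕ) : ℤ), g m =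
    g (K + 1) + (g (-(K + 1)) + ∑ m ∈ Icc (-(K : ℤ)) K, g m) := by
  have h : Icc (-((K + 1 : ℕ) : ℤ)) ((K + 1 : ℕ) : ℤ) = insert ((K : ℤ) + 1) (insert (-((K : ℤ) + 1)) (Icc (-(K : ℤ)) K)) := by
    ext m
    simp only [Finset.mem_Icc, Finset.mem_insert]
    push_cast
    omega
  rw [h, Finset.sum_insert, Finset.sum_insert]
  · simp only [Finset.mem_Icc]; omega
  · simp only [Finset.mem_Icc, Finset.mem_insert]; omega

theorem FJK_dir (u : ℝ) (K : ℕ) : ∑ m ∈ Icc (-(K : ℤ)) K, FJK_e u m =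
    1 + ∑ j ∈ range K, FJK_e u (j + 1) + ∑ j ∈ range K, FJK_e u (-(j + 1)) := by
  induction K with
  | zero => simp [FJK_zero]
  | succ K ih =>
    rw [FJK_Icc, ih, Finset.sum_range_succ, Finset.sum_range_succ]
    ring

theorem FJK_key (u : ℝ) (K : ℕ) : ∑ m ∈ Icc (-(K : ℤ)) K, ((K - |(m : ℝ)| : ℝ) : ℂ) * FJK_e u m =
    (∑ a ∈ range K, FJK_e u a) * ∑ a ∈ range K, FJK_e u (-a) := by
  induction K with
  | zero => simp
  | succ K ih =>
    rw [FJK_Icc]
    have z1 : (((((K + 1 : ℕ) : ℝ)) - |(((K : ℤ) + 1 : ℤ) : ℝ)| : ℝ) : ℂ) = 0 := by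
      rw [abs_of_nonneg (by push_cast; positivity)]
      push_cast
      ring
    have z2 : (((((K + 1 : ℕ) : ℝ)) - |((-((K : ℤ) + 1) : ℤ) : ℝ)| : ℝ) : ℂ) = 0 := by
      push_cast
      rw [abs_of_nonpos (by have : (0 : ℝ) ≤ K := Nat.cast_nonneg K
                            linarith)]
      push_cast
      ring
    rw [z1, z2, zero_mul, zero_mul, zero_add, zero_add]
    have e1 : ∑ m ∈ Icc (-(K : ℤ)) K, (((((K + 1 : ℕ) : ℝ)) - |(m : ℝ)| : ℝ) : ℂ) * FJK_e u m =
        (∑ m ∈ Icc (-(K : ℤ)) K, ((K - |(m : ℝ)| : ℝ) : ℂ) * FJK_e u m) + ∑ m ∈ Icc (-(K : ℤ)) K, FJK_e u m := by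
      rw [← Finset.sum_add_distrib]
      apply Finset.sum_congr rfl
      intro m _
      push_cast
      ring
    rw [e1, ih, FJK_dir, Finset.sum_range_succ, Finset.sum_range_succ]
    have r1 : ∑ j ∈ range K, FJK_e u (-((j : ℤ) + 1)) = (∑ a ∈ range K, FJK_e u a) * FJK_e u (-(K : ℤ)) := by
      rw [Finset.sum_mul, ← Finset.sum_range_reflect]
      apply Finset.sum_congr rfl
      intro j hj
      rw [Finset.mem_range] at hj
      rw [← FJK_add]
      congr 1
      have : ((K - 1 - j : ℕ) : ℤ) = (K : ℤ) - 1 - j := by omega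
      rw [this]
      ring
    have r2 : ∑ j ∈ range K, FJK_e u ((j : ℤ) + 1) = FJK_e u (K : ℤ) * ∑ a ∈ range K, FJK_e u (-(a : ℤ)) := by
      rw [Finset.mul_sum, ← Finset.sum_range_reflect]
      apply Finset.sum_congr rfl
      intro j hj
      rw [Finset.mem_range] at hj
      rw [← FJK_add]
      congr 1
      have : ((K - 1 - j : ℕ) : ℤ) = (K : ℤ) - 1 - j := by omega
      rw [this]
      ring
    have r3 : FJK_e u (K : ℤ) * FJK_e u (-(K : ℤ)) = 1 := by
      rw [← FJK_add, add_neg_cancel, FJK_zero]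
    rw [r1, r2]
    linear_combination -r3

theorem FJK_S (u : ℝ) (K : ℕ) : ∑ a ∈ range K, FJK_e u (-(a : ℤ)) = (starRingEnd ℂ) (∑ a ∈ range K, FJK_e u a) := by
  rw [map_sum]
  apply Finset.sum_congr rfl
  intro a _
  rw [FJK_conj]

theorem FJK_eq (u : ℝ) (K : ℕ) (hK : 1 ≤ K) : fjk K u = ((‖∑ a ∈ range K, FJK_e u a‖ ^ 2 / K : ℝ) : ℂ) := by
  have hK0 : (K : ℂ) ≠ 0 := by exact_mod_cast (by omega : K ≠ 0)
  have h1 := FJK_key u K
  rw [FJK_S, Complex.mul_conj] at h1
  have h2 : fjk K u = (∑ m ∈ Icc (-(K : ℤ)) K, ((K - |(m : ℝ)| : ℝ) : ℂ) * FJK_e u m) / K := by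
    unfold fjk
    rw [Finset.sum_div]
    apply Finset.sum_congr rfl
    intro m _
    show _ * FJK_e u m = _
    push_cast
    field_simp
  rw [h2, h1, Complex.normSq_eq_norm_sq]
  push_cast
  rfl

theorem FJK_geom (u : ℝ) (K : ℕ) : (∑ a ∈ range K, FJK_e u a) * (FJK_e u 1 - 1) = FJK_e u K - 1 := by
  induction K with
  | zero => simp [FJK_zero]
  | succ K ih =>
    rw [Finset.sum_range_succ, add_mul, ih]
    have : FJK_e u ((K + 1 : ℕ) : ℤ) = FJK_e u K * FJK_e u 1 := by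
      rw [← FJK_add]
      push_cast
      rfl
    rw [this]
    ring

theorem FJK_int (m : ℤ) : ∫ u in (-(1 / 2) : ℝ)..(1 / 2), FJK_e u m = if m = 0 then 1 else 0 := by
  by_cases hm : m = 0
  · subst hm
    simp only [FJK_zero]
    simp
    norm_num
  · rw [if_neg hm]
    have hc : (2 * Real.pi * m : ℂ) * Complex.I ≠ 0 := by
      apply mul_ne_zero _ Complex.I_ne_zero
      apply mul_ne_zero
      · apply mul_ne_zero two_ne_zero
        exact_mod_cast Real.pi_ne_zero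
      · exact_mod_cast hm
    have h1 : ∀ u : ℝ, FJK_e u m = Complex.exp (((2 * Real.pi * m : ℂ) * Complex.I) * u) := by
      intro u
      unfold FJK_e
      congr 1
      push_cast
      ring
    simp only [h1]
    rw [integral_exp_mul_complex hc]
    have h2 : Complex.exp (((2 * Real.pi * m : ℂ) * Complex.I) * ((1 / 2 : ℝ) : ℂ)) =
        Complex.exp (((2 * Real.pi * m : ℂ) * Complex.I) * ((-(1 / 2) : ℝ) : ℂ)) := by
      rw [Complex.exp_eq_exp_iff_exists_int]
      refine ⟨m, ?_⟩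
      push_cast
      ring
    rw [h2, sub_self, zero_div]

theorem FJK_cont (K : ℕ) : Continuous (fjk K) := by
  unfold fjk
  fun_prop

theorem FJK : FJK_stmt := by
  intro K hK
  have hKR : (1 : ℝ) ≤ K := by exact_mod_cast hK
  have hK0 : (0 : ℝ) < K := by linarith
  have hre : ∀ u : ℝ, (fjk K u).re = ‖∑ a ∈ range K, FJK_e u a‖ ^ 2 / K := by
    intro u
    rw [FJK_eq u K hK, Complex.ofReal_re]
  have hnorm : ∀ u : ℝ, ‖∑ a ∈ range K, FJK_e u a‖ ≤ K := by
    intro u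
    refine (norm_sum_le _ _).trans ?_
    simp only [FJK_norm]
    simp
  refine ⟨FJK_cont K, ?_, ?_, ?_, ?_⟩
  · intro u
    unfold fjk
    apply Finset.sum_congr rfl
    intro m _
    congr 1
    rw [Complex.exp_eq_exp_iff_exists_int]
    refine ⟨m, ?_⟩
    push_cast
    ring
  · intro u
    refine ⟨?_, ?_, ?_⟩
    · rw [hre]
      exact FJK_eq u K hK
    · rw [hre]
      positivity
    · rw [hre, div_le_iff₀ hK0]
      have h1 := pow_le_pow_left₀ (norm_nonneg _) (hnorm u) 2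
      linarith [h1, sq (K : ℝ)]
  · intro u hu
    rw [hre]
    set S := ∑ a ∈ range K, FJK_e u a with hS
    have h1 : ‖S‖ * ‖FJK_e u 1 - 1‖ ≤ 2 := by
      rw [← norm_mul, hS, FJK_geom]
      calc ‖FJK_e u K - 1‖ ≤ ‖FJK_e u K‖ + ‖(1 : ℂ)‖ := norm_sub_le _ _
        _ = 2 := by rw [FJK_norm, norm_one]; norm_num
    have h2 : 4 * |u| ≤ ‖FJK_e u 1 - 1‖ := by
      have h3 : FJK_e u 1 = Complex.exp (Complex.I * ((2 * Real.pi * u : ℝ) : ℂ)) := by
        unfold FJK_e
        congr 1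
        push_cast
        ring
      rw [h3, Complex.norm_exp_I_mul_ofReal_sub_one]
      have h4 : 2 * Real.pi * u / 2 = Real.pi * u := by ring
      rw [h4, Real.norm_eq_abs, abs_mul, abs_of_pos (by norm_num : (0 : ℝ) < 2)]
      have hpi := Real.pi_pos
      have h5 : |Real.pi * u| ≤ Real.pi / 2 := by
        rw [abs_mul, abs_of_pos hpi]
        nlinarith
      have h6 := Real.mul_abs_le_abs_sin h5
      rw [abs_mul, abs_of_pos hpi] at h6
      have h7 : 2 / Real.pi * (Real.pi * |u|) = 2 * |u| := by field_simp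
      rw [h7] at h6
      linarith
    have h3 : ‖S‖ * (4 * |u|) ≤ 2 := (mul_le_mul_of_nonneg_left h2 (norm_nonneg _)).trans h1
    have h4 : (‖S‖ * (4 * |u|)) ^ 2 ≤ 2 ^ 2 := pow_le_pow_left₀ (by positivity) h3 2
    have h5 : (‖S‖ * (4 * |u|)) ^ 2 = 16 * (u ^ 2 * ‖S‖ ^ 2) := by
      rw [mul_pow, mul_pow, sq_abs]
      ring
    rw [h5] at h4
    have h6 : 4 * K * u ^ 2 * (‖S‖ ^ 2 / K) = 4 * (u ^ 2 * ‖S‖ ^ 2) := by
      field_simp
    rw [h6]
    linarith
  · have h1 : ((∫ u in (-(1 / 2) : ℝ)..(1 / 2), (fjk K u).re : ℝ) : ℂ) = ∫ u in (-(1 / 2) : ℝ)..(1 / 2), fjk K u := by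
      rw [← intervalIntegral.integral_ofReal]
      apply intervalIntegral.integral_congr
      intro u _
      dsimp only
      rw [hre]
      exact (FJK_eq u K hK).symm
    have h2 : ∫ u in (-(1 / 2) : ℝ)..(1 / 2), fjk K u = 1 := by
      have h3 : ∀ u : ℝ, fjk K u = ∑ m ∈ Icc (-(K : ℤ)) K, ((1 - |(m : ℝ)| / K : ℝ) : ℂ) * FJK_e u m := fun u => rfl
      simp only [h3]
      rw [intervalIntegral.integral_finset_sum]
      · simp only [intervalIntegral.integral_const_mul, FJK_int]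
        rw [Finset.sum_eq_single 0]
        · simp
        · intro m _ hm
          rw [if_neg hm, mul_zero]
        · intro h
          exfalso
          apply h
          rw [Finset.mem_Icc]
          omega
      · intro m _
        apply Continuous.intervalIntegrable
        unfold FJK_e
        fun_prop
    rw [h2] at h1
    exact_mod_cast h1

end Pool.Agent.FJ
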