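import Pool.Agent.helper95.FJ.SpecX

set_option autoImplicit false

open Finset

noncomputable section

namespace Pool.Agent.FJ

open Pool.Agent.FI
open Pool.Agent.BP (PW tl Gw fjk FE SCW_stmt)
open Pool.Agent.SK (tr0)

/-- dyadic majorant -/
theorem SCD_maj (h t : ℝ) (hh : 0 < h) (J : ℕ) (ht : |t| ≤ 2 ^ J * h) :
    h ^ 2 / (h ^ 2 + t ^ 2) ≤ ∑ j ∈ range (J + 1), 4 * (1 / 4 : ℝ) ^ j * (if |t| ≤ 2 ^ j * h then 1 else 0) := by
  classical
  have hex : ∃ j : ℕ, |t| ≤ 2 ^ j * h := ⟨J, ht⟩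
  set j := Nat.find hex with hj
  have h1 : |t| ≤ 2 ^ j * h := Nat.find_spec hex
  have hjJ : j ≤ J := Nat.find_min' hex ht
  have hden : 0 < h ^ 2 + t ^ 2 := by positivity
  have hterm : h ^ 2 / (h ^ 2 + t ^ 2) ≤ 4 * (1 / 4 : ℝ) ^ j := by
    rcases Nat.eq_zero_or_pos j with h0 | h0
    · rw [h0, pow_zero, mul_one]
      rw [div_le_iff₀ hden]
      nlinarith [sq_nonneg t, sq_nonneg h]
    · obtain ⟨i, hi⟩ := Nat.exists_eq_succ_of_ne_zero h0.ne'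
      have h2 : ¬ |t| ≤ 2 ^ i * h := Nat.find_min hex (by omega)
      push Not at h2
      have h3 : (2 ^ i * h) ^ 2 ≤ t ^ 2 := by
        rw [← sq_abs t]
        exact pow_le_pow_left₀ (by positivity) h2.le 2
      rw [hi, Nat.succ_eq_add_one, pow_succ (1 / 4 : ℝ) i]
      have h4 : (1 / 4 : ℝ) ^ i * (2 ^ i) ^ 2 = 1 := by
        rw [← pow_mul, mul_comm i 2, pow_mul, ← mul_pow]
        norm_num
      rw [div_le_iff₀ hden]
      have h5 : 0 < (1 / 4 : ℝ) ^ i := by positivity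
      have h6 : h ^ 2 ≤ (1 / 4 : ℝ) ^ i * t ^ 2 := by
        calc h ^ 2 = ((1 / 4 : ℝ) ^ i * (2 ^ i) ^ 2) * h ^ 2 := by rw [h4, one_mul]
          _ = (1 / 4 : ℝ) ^ i * (2 ^ i * h) ^ 2 := by ring
          _ ≤ (1 / 4 : ℝ) ^ i * t ^ 2 := mul_le_mul_of_nonneg_left h3 h5.le
      have h7 : 0 ≤ (1 / 4 : ℝ) ^ i * h ^ 2 := by positivity
      calc h ^ 2 ≤ (1 / 4 : ℝ) ^ i * t ^ 2 := h6
        _ ≤ 4 * ((1 / 4 : ℝ) ^ i * (1 / 4)) * (h ^ 2 + t ^ 2) := by nlinarith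
  refine hterm.trans ?_
  have h8 : 4 * (1 / 4 : ℝ) ^ j = 4 * (1 / 4 : ℝ) ^ j * (if |t| ≤ 2 ^ j * h then 1 else 0) := by
    rw [if_pos h1, mul_one]
  rw [h8]
  refine Finset.single_le_sum (f := fun j => 4 * (1 / 4 : ℝ) ^ j * (if |t| ≤ 2 ^ j * h then (1 : ℝ) else 0)) ?_ (Finset.mem_range.2 (by omega))
  intro i _
  split_ifs
  · positivity
  · simp

theorem SCD_geo (r : ℝ) (h0 : 0 ≤ r) (h1 : r ≤ 1 / 2) (J : ℕ) : ∑ j ∈ range J, r ^ j ≤ 2 := by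
  have h2 : ∑ j ∈ range J, r ^ j ≤ ∑ j ∈ range J, (1 / 2 : ℝ) ^ j :=
    Finset.sum_le_sum fun j _ => pow_le_pow_left₀ h0 h1 j
  refine h2.trans ?_
  have h3 := geom_sum_mul (1 / 2 : ℝ) J
  have h4 : 0 ≤ (1 / 2 : ℝ) ^ J := by positivity
  linarith

theorem SCD (hSCW : SCW_stmt) : SCD_stmt := by
  classical
  obtain ⟨C, hC, H⟩ := hSCW
  refine ⟨8 * C, by positivity, ?_⟩
  intro v c h hv hh
  -- a common bound
  obtain ⟨J, hJ⟩ : ∃ J : ℕ, ∀ z ∈ FE v, |yy z - c| ≤ 2 ^ J * h := by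
    obtain ⟨J, hJ⟩ := pow_unbounded_of_one_lt ((∑ z ∈ FE v, |yy z - c|) / h) (one_lt_two)
    refine ⟨J, fun z hz => ?_⟩
    have h1 : |yy z - c| ≤ ∑ z ∈ FE v, |yy z - c| :=
      Finset.single_le_sum (f := fun z => |yy z - c|) (fun _ _ => abs_nonneg _) hz
    have h2 := (div_lt_iff₀ hh).1 hJ
    linarith
  calc ∑ z ∈ FE v, h ^ 2 / (h ^ 2 + (yy z - c) ^ 2)
      ≤ ∑ z ∈ FE v, ∑ j ∈ range (J + 1), 4 * (1 / 4 : ℝ) ^ j * (if |yy z - c| ≤ 2 ^ j * h then 1 else 0) :=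
        Finset.sum_le_sum fun z hz => SCD_maj h (yy z - c) hh J (hJ z hz)
    _ = ∑ j ∈ range (J + 1), 4 * (1 / 4 : ℝ) ^ j * (#{z ∈ FE v | |yy z - c| ≤ 2 ^ j * h} : ℝ) := by
        rw [Finset.sum_comm]
        apply Finset.sum_congr rfl
        intro j _
        rw [← Finset.mul_sum, Finset.card_filter]
        push_cast
        rfl
    _ ≤ ∑ j ∈ range (J + 1), 4 * (1 / 4 : ℝ) ^ j * (C * (2 ^ j * h * v + √v)) := by
        apply Finset.sum_le_sum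
        intro j _
        exact mul_le_mul_of_nonneg_left (H v c (2 ^ j * h) hv (by positivity)) (by positivity)
    _ = (4 * C * h * v) * ∑ j ∈ range (J + 1), (1 / 2 : ℝ) ^ j + (4 * C * √v) * ∑ j ∈ range (J + 1), (1 / 4 : ℝ) ^ j := by
        rw [Finset.mul_sum, Finset.mul_sum, ← Finset.sum_add_distrib]
        apply Finset.sum_congr rfl
        intro j _
        have h4 : (1 / 4 : ℝ) ^ j * 2 ^ j = (1 / 2) ^ j := by
          rw [← mul_pow]; norm_num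
        rw [← h4]
        ring
    _ ≤ (4 * C * h * v) * 2 + (4 * C * √v) * 2 :=
        add_le_add (mul_le_mul_of_nonneg_left (SCD_geo _ (by norm_num) (by norm_num) _) (by positivity))
          (mul_le_mul_of_nonneg_left (SCD_geo _ (by norm_num) (by norm_num) _) (by positivity))
    _ = 8 * C * (h * v + √v) := by ring

end Pool.Agent.FJ
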