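import Pool.Agent.helper95.FJ.SpecX

set_option autoImplicit false

open Finset

noncomputable section

namespace Pool.Agent.FJ

open Pool.Agent.FI
open Pool.Agent.BP (PW tl Gw fjk FE SCW_stmt)
open Pool.Agent.SK (tr0)

theorem TNP_nn (v δ y : ℝ) : 0 ≤ tr0 v δ y := le_max_left _ _

theorem TNP_zero (v δ y : ℝ) (hδ : 0 < δ) (h : δ ≤ |y - v|) : tr0 v δ y = 0 := by
  unfold tr0
  apply max_eq_left
  have := (one_le_div hδ).2 h
  linarith

/-- the value at the two nearest tents -/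
theorem TNP_val (δ y : ℝ) (hδ : 0 < δ) :
    tr0 ((⌊y / δ⌋ : ℝ) * δ) δ y = 1 - Int.fract (y / δ) ∧ tr0 (((⌊y / δ⌋ + 1 : ℤ) : ℝ) * δ) δ y = Int.fract (y / δ) := by
  have h0 := Int.fract_nonneg (y / δ)
  have h1 := Int.fract_lt_one (y / δ)
  have h2 : y = ((⌊y / δ⌋ : ℝ) + Int.fract (y / δ)) * δ := by
    rw [Int.floor_add_fract]
    field_simp
  have e1 : y - (⌊y / δ⌋ : ℝ) * δ = Int.fract (y / δ) * δ := by linarith
  have e2 : y - ((⌊y / δ⌋ + 1 : ℤ) : ℝ) * δ = -((1 - Int.fract (y / δ)) * δ) := by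
    push_cast
    linarith
  constructor
  · unfold tr0
    rw [e1, abs_of_nonneg (by positivity), mul_div_cancel_right₀ _ hδ.ne']
    exact max_eq_right (by linarith)
  · unfold tr0
    rw [e2, abs_neg, abs_of_nonneg (mul_nonneg (by linarith) hδ.le), mul_div_cancel_right₀ _ hδ.ne']
    rw [sub_sub_cancel]
    exact max_eq_right h0

theorem TNP_other (δ y : ℝ) (hδ : 0 < δ) (k : ℤ) (h1 : k ≠ ⌊y / δ⌋) (h2 : k ≠ ⌊y / δ⌋ + 1) : tr0 ((k : ℝ) * δ) δ y = 0 := by
  apply TNP_zero _ _ _ hδ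
  have hf := Int.floor_le (y / δ)
  have hf2 := Int.lt_floor_add_one (y / δ)
  rcases lt_trichotomy k ⌊y / δ⌋ with h | h | h
  · have h3 : (k : ℝ) + 1 ≤ ⌊y / δ⌋ := by exact_mod_cast h
    have h4 : (k + 1 : ℝ) ≤ y / δ := h3.trans hf
    rw [le_div_iff₀ hδ] at h4
    rw [le_abs]
    left
    linarith
  · exact absurd h h1
  · have h3 : ⌊y / δ⌋ + 2 ≤ k := by omega
    have h4 : (⌊y / δ⌋ : ℝ) + 2 ≤ k := by exact_mod_cast h3
    have h5 : y / δ ≤ k - 1 := by linarith
    rw [div_le_iff₀ hδ] at h5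
    rw [le_abs]
    right
    linarith

theorem TNP_sum (δ y : ℝ) (hδ : 0 < δ) (S : Finset ℤ) :
    ∑ k ∈ S, tr0 ((k : ℝ) * δ) δ y =
      (if ⌊y / δ⌋ ∈ S then 1 - Int.fract (y / δ) else 0) + (if ⌊y / δ⌋ + 1 ∈ S then Int.fract (y / δ) else 0) := by
  classical
  obtain ⟨v1, v2⟩ := TNP_val δ y hδ
  have h1 : ∀ k ∈ S, tr0 ((k : ℝ) * δ) δ y = (if k = ⌊y / δ⌋ then 1 - Int.fract (y / δ) else 0) +
      (if k = ⌊y / δ⌋ + 1 then Int.fract (y / δ) else 0) := by
    intro k _
    by_cases ha : k = ⌊y / δ⌋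
    · have hb : k ≠ ⌊y / δ⌋ + 1 := by omega
      rw [if_pos ha, if_neg hb, ha, v1, add_zero]
    · by_cases hb : k = ⌊y / δ⌋ + 1
      · rw [if_neg ha, if_pos hb, hb, v2, zero_add]
      · rw [if_neg ha, if_neg hb, TNP_other δ y hδ k ha hb, add_zero]
  rw [Finset.sum_congr rfl h1, Finset.sum_add_distrib, Finset.sum_ite_eq', Finset.sum_ite_eq']

theorem TNP_le (δ y : ℝ) (hδ : 0 < δ) (S : Finset ℤ) : ∑ k ∈ S, tr0 ((k : ℝ) * δ) δ y ≤ 1 := by
  rw [TNP_sum δ y hδ]
  have h0 := Int.fract_nonneg (y / δ)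
  have h1 := Int.fract_lt_one (y / δ)
  split_ifs <;> linarith

theorem TNP : TNP_stmt := by
  intro a b δ hab hδ
  refine ⟨Icc ⌈(a + δ) / δ⌉ ⌊(b - δ) / δ⌋, Ioo ⌊(a - δ) / δ⌋ ⌈(b + δ) / δ⌉, ⟨?_, ?_⟩, ?_, ?_⟩
  · have h1 : (((⌊(b - δ) / δ⌋ + 1 - ⌈(a + δ) / δ⌉).toNat : ℤ) : ℝ) ≤ (b - a) / δ + 5 := by
      rw [Int.toNat_eq_max]
      push_cast
      apply max_le
      · have h2 := Int.floor_le ((b - δ) / δ)
        have h3 := Int.le_ceil ((a + δ) / δ)
        have h4 : (b - δ) / δ = b / δ - 1 := by field_simp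
        have h5 : (a + δ) / δ = a / δ + 1 := by field_simp
        rw [h4] at h2 ⊢
        rw [h5] at h3 ⊢
        rw [sub_div]
        linarith
      · have : 0 ≤ (b - a) / δ := div_nonneg (by linarith) hδ.le
        linarith
    rw [Int.card_Icc]
    exact_mod_cast h1
  · have h1 : (((⌈(b + δ) / δ⌉ - ⌊(a - δ) / δ⌋ - 1).toNat : ℤ) : ℝ) ≤ (b - a) / δ + 5 := by
      rw [Int.toNat_eq_max]
      push_cast
      apply max_le
      · have h2 := Int.ceil_lt_add_one ((b + δ) / δ)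
        have h3 := Int.lt_floor_add_one ((a - δ) / δ)
        have h4 : (b + δ) / δ = b / δ + 1 := by field_simp
        have h5 : (a - δ) / δ = a / δ - 1 := by field_simp
        rw [h4] at h2 ⊢
        rw [h5] at h3 ⊢
        rw [sub_div]
        linarith
      · have : 0 ≤ (b - a) / δ := div_nonneg (by linarith) hδ.le
        linarith
    rw [Int.card_Ioo]
    exact_mod_cast h1
  · intro k hk
    rcases hk with hk | hk
    · rw [Finset.mem_Icc, Int.ceil_le, Int.le_floor, div_le_iff₀ hδ, le_div_iff₀ hδ] at hk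
      constructor <;> linarith [hk.1, hk.2]
    · rw [Finset.mem_Ioo, Int.floor_lt, Int.lt_ceil, div_lt_iff₀ hδ, lt_div_iff₀ hδ] at hk
      constructor <;> linarith [hk.1, hk.2]
  · intro y
    have hfl := Int.floor_le (y / δ)
    have hfl2 := Int.lt_floor_add_one (y / δ)
    rw [le_div_iff₀ hδ] at hfl
    rw [div_lt_iff₀ hδ] at hfl2
    have f0 := Int.fract_nonneg (y / δ)
    have f1 := Int.fract_lt_one (y / δ)
    refine ⟨?_, ?_, ?_, ?_⟩
    · by_cases h : a < y ∧ y ≤ b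
      · rw [if_pos h]
        exact TNP_le δ y hδ _
      · rw [if_neg h]
        apply le_of_eq
        apply Finset.sum_eq_zero
        intro k hk
        rw [Finset.mem_Icc, Int.ceil_le, Int.le_floor, div_le_iff₀ hδ, le_div_iff₀ hδ] at hk
        apply TNP_zero _ _ _ hδ
        rw [le_abs]
        by_cases h2 : a < y
        · left
          have h3 : b < y := by
            by_contra h4
            exact h ⟨h2, not_lt.1 h4⟩
          linarith [hk.2]
        · right
          linarith [hk.1]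
    · by_cases h : a < y ∧ y ≤ b
      · rw [if_pos h, TNP_sum δ y hδ]
        have m1 : ⌊y / δ⌋ ∈ Ioo ⌊(a - δ) / δ⌋ ⌈(b + δ) / δ⌉ := by
          rw [Finset.mem_Ioo, Int.floor_lt, Int.lt_ceil, div_lt_iff₀ hδ, lt_div_iff₀ hδ]
          constructor <;> nlinarith [h.1, h.2]
        rw [if_pos m1]
        by_cases m2 : ⌊y / δ⌋ + 1 ∈ Ioo ⌊(a - δ) / δ⌋ ⌈(b + δ) / δ⌉
        · rw [if_pos m2]
          linarith
        · rw [if_neg m2]
          have h3 : Int.fract (y / δ) ≤ 0 := by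
            by_contra h4
            push Not at h4
            apply m2
            rw [Finset.mem_Ioo, Int.floor_lt, Int.lt_ceil, div_lt_iff₀ hδ, lt_div_iff₀ hδ]
            have h5 : (⌊y / δ⌋ : ℝ) * δ < y := by
              have h6 : (⌊y / δ⌋ : ℝ) < y / δ := by
                have := Int.floor_add_fract (y / δ)
                linarith
              rwa [lt_div_iff₀ hδ] at h6
            push_cast
            constructor <;> nlinarith [h.1, h.2]
          linarith
      · rw [if_neg h]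
        exact Finset.sum_nonneg fun k _ => TNP_nn _ _ _
    · by_cases h : a + 2 * δ ≤ y ∧ y ≤ b - 2 * δ
      · rw [if_pos h, TNP_sum δ y hδ]
        have m1 : ⌊y / δ⌋ ∈ Icc ⌈(a + δ) / δ⌉ ⌊(b - δ) / δ⌋ := by
          rw [Finset.mem_Icc, Int.ceil_le, Int.le_floor, div_le_iff₀ hδ, le_div_iff₀ hδ]
          constructor <;> nlinarith [h.1, h.2]
        have m2 : ⌊y / δ⌋ + 1 ∈ Icc ⌈(a + δ) / δ⌉ ⌊(b - δ) / δ⌋ := by
          rw [Finset.mem_Icc, Int.ceil_le, Int.le_floor, div_le_iff₀ hδ, le_div_iff₀ hδ]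
          push_cast
          constructor <;> nlinarith [h.1, h.2]
        rw [if_pos m1, if_pos m2]
        linarith
      · rw [if_neg h]
        exact Finset.sum_nonneg fun k _ => TNP_nn _ _ _
    · by_cases h : a - 2 * δ < y ∧ y < b + 2 * δ
      · rw [if_pos h]
        exact TNP_le δ y hδ _
      · rw [if_neg h]
        apply le_of_eq
        apply Finset.sum_eq_zero
        intro k hk
        rw [Finset.mem_Ioo, Int.floor_lt, Int.lt_ceil, div_lt_iff₀ hδ, lt_div_iff₀ hδ] at hk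
        apply TNP_zero _ _ _ hδ
        rw [le_abs]
        by_cases h2 : a - 2 * δ < y
        · left
          have h3 : b + 2 * δ ≤ y := by
            by_contra h4
            exact h ⟨h2, not_le.1 h4⟩
          linarith [hk.2]
        · right
          linarith [hk.1]

end Pool.Agent.FJ
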